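import Pool.Agent.T9h44.NK.SpecB2

/-!
# Project NK, better slopes: `PT 5` (and `PT 4` in high dimension) is enough
-/

set_option autoImplicit false

open Set
open scoped RealInnerProductSpace

namespace Pool.Agent.T9h44.NK

open Pool.Agent.T9h98.DC

/-- unit vectors with sum 0, all products `q` or `≤ 2 q - 1` -/
def Cfg {m : ℕ} (q : ℝ) (X : Finset (E m)) : Prop :=
  (∀ x ∈ X, ‖x‖ = 1) ∧ (∀ x ∈ X, ∀ y ∈ X, x ≠ y → ⟪x, y⟫ = q ∨ ⟪x, y⟫ ≤ 2 * q - 1) ∧ ∑ x ∈ X, x = 0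

/-- **ABS.** Fix `x ∈ X`, `U` = the `b` vectors with product `≤ 2 q - 1`, `a = |X| - 1 - b`. `0 = ⟪x, ∑⟫`: `t := 1 + a q =
∑_{u ∈ U} -⟪x, u⟫ ≥ b (1 - 2 q)`. Cauchy-Schwarz: `t² ≤ ‖∑_U u‖² ≤ b + b (b - 1) q`. As `(1 - 2 q)² - q = (1 - q)(1 - 4 q)`:
`b (1 - 4 q) ≤ 1`; and then `t² ≤ b (1 - q) + b² q ≤ ((1 - 2 q)/(1 - 4 q))²`, so `a (1 - 4 q) ≤ 2`. -/
def S_ABS : Prop := ∀ (m : ℕ) (q : ℝ) (X : Finset (E m)), 0 < q → q < 1 / 4 → X.Nonempty → Cfg q X →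
  ((X.card : ℝ) - 1) * (1 - 4 * q) ≤ 3

/-- **FX** (uses `S_FACES`, `S_CONE`, `S_IOTA`, `S_NB`, `S_VF`, `S_TR`, `S_M0`, `S_M1`, `S_SUM0`, `kl` of `T9h47/NK/Metric`). `X` = the vertices of
the figure at a vertex `v` (`M1`); `⟪x, x'⟫ (1 - c²) = ⟪y, y'⟫ - c²`, `⟪y, y'⟫ = c` if `y, y'` are adjacent, `≤ 2 c - 1` otherwise
(`kl`), and `(2 c - 1 - c²)/(1 - c²) = 2 q - 1`, `q = c/(1 + c)`. Sum `0`: `S_SUM0` for the figure (`figH` is transitive on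
its vertices, `S_TR`). At least `n + 1` vertices (interior points in `E n`). -/
def S_FX : Prop := ∀ (n : ℕ) (P : Set (E (n + 1))) (H : Subgroup (E (n + 1) ≃ₗᵢ[ℝ] E (n + 1))) (c : ℝ),
  IsPolytope P → Pres H P → UV P → EC c P → 0 < c → c < 1 → PT 2 H P →
    ∃ X : Finset (E n), n + 1 ≤ X.card ∧ Cfg (c / (1 + c)) X

/-- **B5** (uses `S_ABS`, `S_FX`). `q = c/(1+c) < 1/5`, `(|X| - 1)(1 - 4 q) > 15/5`. -/
def S_B5 : Prop := ∀ (n : ℕ), 15 ≤ n → ∀ (P : Set (E (n + 1)))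
    (H : Subgroup (E (n + 1) ≃ₗᵢ[ℝ] E (n + 1))) (c : ℝ),
  IsPolytope P → Pres H P → UV P → EC c P → 0 < c → c < 1 / 4 → PT 2 H P → False

/-- **QJ5** (as `QJ2`, base `S_B5`). -/
def S_QJ5 : Prop := ∀ (j : ℕ), j ≤ 2 → ∀ (n : ℕ), 15 + j ≤ n → ∀ (P : Set (E (n + 1)))
    (H : Subgroup (E (n + 1) ≃ₗᵢ[ℝ] E (n + 1))) (c : ℝ),
  IsPolytope P → Pres H P → UV P → EC c P → 0 < c → c < 1 / (4 - j) → PT (j + 2) H P → False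

/-- **LL5** (as `LL2`, with `S_QJ5`, `j = 2`). -/
def S_LL5 : Prop := ∀ (n : ℕ), 18 ≤ n → ∀ (P : Set (E (n + 1)))
    (H : Subgroup (E (n + 1) ≃ₗᵢ[ℝ] E (n + 1))),
  IsPolytope P → Pres H P → PT 5 H P → Reg P

/-- **LL7** (helper40: `c < 1/6` is impossible in dimension `≥ 5`): `PT 7`, `n ≥ 9`. -/
def S_LL7 : Prop := ∀ (n : ℕ), 9 ≤ n → ∀ (P : Set (E (n + 1)))
    (H : Subgroup (E (n + 1) ≃ₗᵢ[ℝ] E (n + 1))),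
  IsPolytope P → Pres H P → PT 7 H P → Reg P

/-- **ABS4.** No configuration with `q < 1/4` and at least 303 vectors. See `Abs4` (pieces `X1`-`X5`) for the proof. -/
def S_ABS4 : Prop := ∀ (m : ℕ) (q : ℝ) (X : Finset (E m)), 0 < q → q < 1 / 4 → Cfg q X → X.card ≤ 302

/-- **QJ4** (as `QJ2`, base from `S_ABS4`, `S_FX`: `c < 1/3` gives `q < 1/4`). -/
def S_QJ4 : Prop := ∀ (j : ℕ), j ≤ 1 → ∀ (n : ℕ), 302 + j ≤ n → ∀ (P : Set (E (n + 1)))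
    (H : Subgroup (E (n + 1) ≃ₗᵢ[ℝ] E (n + 1))) (c : ℝ),
  IsPolytope P → Pres H P → UV P → EC c P → 0 < c → c < 1 / (3 - j) → PT (j + 2) H P → False

/-- **LL4** (as `LL2`, with `S_QJ4`, `j = 1`). -/
def S_LL4 : Prop := ∀ (n : ℕ), 304 ≤ n → ∀ (P : Set (E (n + 1)))
    (H : Subgroup (E (n + 1) ≃ₗᵢ[ℝ] E (n + 1))),
  IsPolytope P → Pres H P → PT 4 H P → Reg P

end Pool.Agent.T9h44.NK
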