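import Pool.Agent.T9h44.NK.Defs

/-!
# Project NK, part B: inscribed polytopes with equal edges

Each `S_...` is one piece; the pieces named after the word uses may be hypotheses.
-/

set_option autoImplicit false

open Set
open scoped RealInnerProductSpace

namespace Pool.Agent.T9h44.NK

open Pool.Agent.T9h98.DC

/-- **M0** (uses `S_FACES`, `S_CONE`). `w - v = ∑ λ_y (y - v)` (neighbours `y` of `v`), so
`⟪w, v⟫ = 1 - (1 - c) Λ`, `Λ = ∑ λ_y`; `Λ < 1` would make the vertex `w` a proper convex combination containing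
`v`. -/
def S_M0 : Prop := ∀ (d : ℕ) (P : Set (E (d + 1))) (c : ℝ), IsPolytope P → UV P → EC c P → c < 1 →
  PC c P

/-- **M1** (uses `S_FACES`, `S_NB`). The figure of an inscribed polytope with equal edges is inscribed: `n = - l v`,
`l = √((1 - c)/(1 + c))`; if `y - v = t (n + ι x)` then `t = (1 - c)/l`, `√(1 - c²) ι x = y - c v`. -/
def S_M1 : Prop := ∀ (d : ℕ) (P : Set (E (d + 1))) (v : E (d + 1)) (ι : E d →ₗᵢ[ℝ] E (d + 1)) (c : ℝ),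
  IsPolytope P → UV P → EC c P → -1 < c → c < 1 → Vx P v → Ort v ι →
    ∃ l : ℝ, 0 < l ∧ Sup P v (-l • v) ∧ Ort (-l • v) ι ∧ -l • v ≠ 0 ∧ UV (fig v (-l • v) ι P) ∧
      ∀ y y' x x', Adj P v y → Adj P v y' → Pr v (-l • v) ι y x → Pr v (-l • v) ι y' x' →
        ⟪x, x'⟫ * (1 - c ^ 2) = ⟪y, y'⟫ - c ^ 2

/-- **POLY4.** Write `x i = p + u i`, `p` the foot of the perpendicular from `0` to the plane, `‖u i‖² = r² = 1 - ‖p‖²`,
`⟪u i, u j⟫ ≤ c - ‖p‖² ≤ c r²` (`c < 1`). In dimension 2: `∑_{ij} ⟪u i, u j⟫² ≥ (∑ ‖u i‖²)²/2`,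
`∑_{ij} ⟪u i, u j⟫ ≥ 0`; with `f x = (x + 1)(x - c) ≤ 0` on `[-1, c]` and cosines `x_ij`:
`25 (1/2 - c) ≤ ∑_{ij} f(x_ij) ≤ 5 · 2 (1 - c)`, so `c ≥ 1/6`. (If `c ≥ 1/6` nothing to prove.) -/
def S_POLY4 : Prop := ∀ (d : ℕ) (T : Set (E d)) (c : ℝ) (x : Fin 5 → E d), (∀ i, x i ∈ T) →
  dm T ≤ 2 → (∀ i, ‖x i‖ = 1) → (∀ i j, i ≠ j → ⟪x i, x j⟫ ≤ c) → 1 / 6 ≤ c

/-- **T34** (uses `S_FACES`, `S_TWO`, `S_POLY4`). `T` has 3 or 4 vertices (every vertex has exactly two neighbours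
in `T`, `S_TWO`). 3 vertices: `y, z` adjacent. 4 vertices `v, y, z, t`: `t` is adjacent to `y, z` (otherwise `v, y, z` is a
closed triangle and `t` has no neighbour), all four edges have length `√(2 - 2 c)`, so `t = y + z - v`, `‖t‖ = 1`. -/
def S_T34 : Prop := ∀ (d : ℕ) (P T : Set (E (d + 1))) (c : ℝ) (v y z : E (d + 1)),
  IsPolytope P → UV P → EC c P → PC c P → c < 1 / 6 → IsFace P T → dm T = 2 →
    Adj P v y → Adj P v z → y ≠ z → v ∈ T → y ∈ T → z ∈ T → ⟪y, z⟫ = c ∨ ⟪y, z⟫ = 2 * c - 1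

/-- **PTO** (uses `S_FACES`, `S_TWO`, `S_POLY4`). At most 4 vertices. If there were 4, in cyclic order `a, b, u, w`
(edges `ab, bu, uw, wa`): `u - a = α (b - a) + β (w - a)` with `α, β > 0`, `α + β > 1` (`u` extreme), so the diagonals
`au, bw` meet, Ptolemy (`EuclideanGeometry.mul_dist_add_mul_dist_eq_mul_dist_of_cospherical`):
`4 ≥ |au| |bw| = |ab| |uw| + |bu| |wa| ≥ (√2 + 1) s²`, `s² = 2 - 2 c ≥ 7/4`, a contradiction (all distances are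
`≥ s`, `|ab|² = 4 - 4 c = 2 s²`). -/
def S_PTO : Prop := ∀ (d : ℕ) (P T : Set (E (d + 1))) (c : ℝ) (a b : E (d + 1)),
  IsPolytope P → UV P → PC c P → 0 < c → c < 1 / 8 → IsFace P T → dm T = 2 → Adj P a b →
    a ∈ T → b ∈ T → ⟪a, b⟫ = 2 * c - 1 →
      ∃ u, Adj P a u ∧ Adj P b u ∧ u ∈ T ∧ ∀ w, Vx P w → w ∈ T → w = a ∨ w = b ∨ w = u

/-- **GRAM.** The Gram determinant `1 + 2 p q r - p² - q² - r² ≥ 0`; for `(2c-1, c, 2c-1)` it is
`-(1 - c)² (1 - 8 c)`, for three times `-m`, `m = 1 - 2 c`, it is `-(m + 1)² (2 m - 1)`. -/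
def S_GRAM : Prop := ∀ (d : ℕ) (a b u : E d) (c : ℝ), ‖a‖ = 1 → ‖b‖ = 1 → ‖u‖ = 1 → 0 < c →
  c < 1 / 8 → ⟪a, b⟫ = 2 * c - 1 → (⟪u, a⟫ = c ∨ ⟪u, a⟫ = 2 * c - 1) →
    (⟪u, b⟫ = c ∨ ⟪u, b⟫ = 2 * c - 1) → ⟪u, a⟫ = c ∧ ⟪u, b⟫ = c

/-- **LONG** (uses `S_FACES`, `S_SPAN`, `S_PTO`, `S_GRAM`). If `⟪a, b⟫ = 2 c - 1` for an edge: every 2-face containing
it is a triangle `a, b, u` with `⟪u, a⟫ = ⟪u, b⟫ = c`, so it is in `{x | ⟪a + b, x⟫ = 2 c}`; `S_SPAN` gives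
`a + b = 0`, `⟪a, b⟫ = -1`, `c = 0`. -/
def S_LONG : Prop := ∀ (d : ℕ) (P : Set (E (d + 2))) (c : ℝ), IsPolytope P → UV P → PC c P → 0 < c →
  c < 1 / 8 → (∀ a b, Adj P a b → ⟪a, b⟫ = c ∨ ⟪a, b⟫ = 2 * c - 1) → EC c P

/-- **TC** (uses `S_FACES`, `S_CONE`, `S_IOTA`, `S_NB`, `S_M0`, `S_M1`, `S_T34`, `S_LONG`). Induction on `d`. `d = 0`:
two adjacent unit vectors in `E 1` have inner product `-1`. Step: `PC c` (M0), the figure has `UV`, `PC c'`,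
`c' = c/(1 + c) < 1/8`, and all its edges have `⟪x, x'⟫ ∈ {c', 2 c' - 1}` (`T34`, `NB`); if the figure is in `E 1`: the
inner product of its adjacent vertices is `-1`, neither `c'` nor `2 c' - 1`; otherwise `LONG` gives `EC c'` and the
induction hypothesis applies. -/
def S_TC : Prop := ∀ (d : ℕ) (P : Set (E (d + 1))) (c : ℝ), IsPolytope P → UV P → EC c P → 0 < c →
  c < 1 / 7 → False

/-- **M3** (uses `S_FACES`, `S_TWO`). A 2-face with equal edges and equal angles. Put `f = y - v`, `g = z - v`, `q = -2 κ`.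
Next vertex: the other neighbour of `y` in `T` is `y + g + q f` (same length, same angle, same side of the line `v y`
as `z`, because `[v, y]` is a face). So in the coordinates `v + α f + β g`: `t = (1 + q, 1)` (neighbour of `y`),
`t' = (1, 1 + q)` (neighbour of `z`), `t₂ = (q + q², 1 + q)` (neighbour of `t`). `1 + q ≥ 0` by the cone;
`1 + q = 0`: `t = z`. `-1 < q < 0`: `t` and `v` are strictly on different sides of the line of the edge `[z, t']`.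
`0 < q < 1/2`: the same for `t₂` and `v`. -/
def S_M3 : Prop := ∀ (d : ℕ) (P T : Set (E (d + 1))) (s κ : ℝ), IsPolytope P → IsFace P T →
  dm T = 2 → 0 < s → (∀ a b, Adj P a b → a ∈ T → b ∈ T → dist a b = s) →
  (∀ v y z, Adj P v y → Adj P v z → y ≠ z → v ∈ T → y ∈ T → z ∈ T →
    ⟪y - v, z - v⟫ = κ * s ^ 2) →
  ∀ v y z, Adj P v y → Adj P v z → y ≠ z → v ∈ T → y ∈ T → z ∈ T →
    (κ = 1 / 2 ∧ Adj P y z) ∨ (κ = 0 ∧ Adj P y (y + z - v) ∧ y + z - v ∈ T) ∨ κ ≤ -1 / 4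

/-- **RANKIN.** Induction on `d` (project onto the orthogonal complement of one of the vectors), or linear algebra. -/
def S_RANKIN : Prop := ∀ (d : ℕ) (X : Finset (E d)),
  (∀ x ∈ X, ∀ y ∈ X, x ≠ y → ⟪x, y⟫ < 0) → X.card ≤ d + 1

/-- **SIMP** (uses `S_FACES`). A polytope with at most `d + 1` vertices is a simplex; all pairs are adjacent. -/
def S_SIMP : Prop := ∀ (d : ℕ) (P : Set (E d)) (X : Finset (E d)), IsPolytope P →
  (∀ v, Vx P v → v ∈ X) → X.card ≤ d + 1 →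
    (∀ v w, Vx P v → Vx P w → v ≠ w → Adj P v w) ∧
    ∃ v : Fin (d + 1) → E d, Function.Injective v ∧ (∀ i, Vx P (v i)) ∧
      (∀ w, Vx P w → ∃ i, v i = w) ∧ P = convexHull ℝ (range v)

/-- **L1** (uses `S_FACES`, `S_M0`, `S_RANKIN`, `S_SIMP`). -/
def S_L1 : Prop := ∀ (d : ℕ) (P : Set (E (d + 1))) (c : ℝ), IsPolytope P → UV P → EC c P → c < 0 →
  RegS P ∧ ∀ v w, Vx P v → Vx P w → v ≠ w → Adj P v w

/-- **L2** (uses `S_FACES`, `S_IOTA`, `S_NB`, `S_TR`, `S_M0`, `S_M1`). `PC 0`. The sum `σ` of the vertices is fixed by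
`H`, `H` is transitive on the vertices, so `⟪v, σ⟫` is constant on `P`, `σ = 0`. The same in the figure at `v` (whose
vertices are the neighbours of `v`, `n = -v`): the sum of the neighbours of `v` is `0`. A vertex `w ≠ v` not adjacent to
`v` has `⟪w, y⟫ ≤ 0` for all neighbours `y`, sum `0`, so `w ⟂ y` for all of them, they span `v^⊥`, `w = -v`. As `σ = 0`,
`-v` is a vertex. So `P` is a cross-polytope. -/
def S_L2 : Prop := ∀ (d : ℕ) (P : Set (E (d + 1))) (H : Subgroup (E (d + 1) ≃ₗᵢ[ℝ] E (d + 1))),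
  IsPolytope P → Pres H P → UV P → EC 0 P → PT 2 H P → RegO P

/-- hypotheses of the simple case: equal edges, every vertex has exactly `d` neighbours, any two of them are in
a common 2-face and `⟪y - v, z - v⟫ = κ v s²` -/
def Simp {d : ℕ} (P : Set (E d)) (s : ℝ) (κ : E d → ℝ) : Prop :=
  0 < s ∧ (∀ a b, Adj P a b → dist a b = s) ∧
  (∀ v, Vx P v → ∃ X : Finset (E d), X.card = d ∧ ∀ y, y ∈ X ↔ Adj P v y) ∧
  (∀ v y z, Adj P v y → Adj P v z → y ≠ z → ⟪y - v, z - v⟫ = κ v * s ^ 2 ∧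
    ∃ T, IsFace P T ∧ dm T = 2 ∧ v ∈ T ∧ y ∈ T ∧ z ∈ T)

/-- **SS1** (uses `S_FACES`, `S_TWO`, `S_CONE`, `S_CONN`). Neighbours `v + e_i` (`i = 1..D`, `|e_i| = s`,
`⟪e_i, e_j⟫ = κ_v s²`), `w = v + e_1`; for `j ≥ 2` the 2-face through `v, w, v + e_j` has at `w` the further
neighbour `w + f_j`, `f_j = α_j (e_j - κ_v e_1) - κ_w e_1`, `α_j > 0`, `α_j² (1 - κ_v²) = 1 - κ_w²`, so `α_j = α`;
`⟪f_i, f_j⟫ = κ_w s²` (`i ≠ j`): `α² κ_v (1 - κ_v) + κ_w² = κ_w`, hence `(1 + κ_w) κ_v = κ_w (1 + κ_v)`, `κ_v = κ_w`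
(`κ < 1`). By `S_CONN` `κ` is constant. `‖∑ e_i‖² > 0` (`e_i` span by `S_CONE`): `κ > -1/(D - 1) ≥ -1/4`. -/
def S_SS1 : Prop := ∀ (d : ℕ) (P : Set (E (d + 5))) (s : ℝ) (κ : E (d + 5) → ℝ), IsPolytope P →
  Simp P s κ → ∃ k : ℝ, -1 / 4 < k ∧ ∀ v, Vx P v → κ v = k

/-- **SS2** (uses `S_FACES`, `S_CONN`, `S_M3`). All `κ = 1/2`: neighbours of `v` are adjacent to each other, so
`{v} ∪ N(v)` is closed under adjacency. -/
def S_SS2 : Prop := ∀ (d : ℕ) (P : Set (E (d + 5))) (s : ℝ) (κ : E (d + 5) → ℝ), IsPolytope P →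
  Simp P s κ → (∀ v, Vx P v → κ v = 1 / 2) → RegS P

/-- **SS3** (uses `S_FACES`, `S_CONN`, `S_M3`). All `κ = 0`: the neighbours of `v + e_1` are `v`, `v + e_1 + e_j`; the
vertex set is `{v + ∑_{i ∈ I} e_i}`. -/
def S_SS3 : Prop := ∀ (d : ℕ) (P : Set (E (d + 5))) (s : ℝ) (κ : E (d + 5) → ℝ), IsPolytope P →
  Simp P s κ → (∀ v, Vx P v → κ v = 0) → RegC P

/-- **SS** (uses `S_FACES`, `S_CONN`, `S_TWO`, `S_M3`, `S_SS1`, `S_SS2`, `S_SS3`). -/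
def S_SS : Prop := ∀ (d : ℕ) (P : Set (E (d + 5))) (s : ℝ) (κ : E (d + 5) → ℝ), IsPolytope P →
  Simp P s κ → RegS P ∨ RegC P

/-- **RSC** (vertices of `RegS`, `RegC` inscribed in the unit sphere). `RegS`: `d + 2` unit vectors `v i` in `E (d+1)` with
equal products `c ≥ 0`, `c < 1`, would be linearly independent. `RegC`: the circumcentre is `0`, adjacent vertices
`r ∑ ± b_i` differ in one sign, `(d + 1) r² = 1`. -/
def S_RSC : Prop := ∀ (d : ℕ) (P : Set (E (d + 1))) (c : ℝ), IsPolytope P → UV P → EC c P →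
  (RegS P → c < 0) ∧ (RegC P → c = 1 - 2 / (d + 1))

/-- **ECP** (uses `S_FACES`, `S_CONE`). `PT 2` gives `EC c` with `c < 1`. -/
def S_ECP : Prop := ∀ (d : ℕ) (P : Set (E (d + 1))) (H : Subgroup (E (d + 1) ≃ₗᵢ[ℝ] E (d + 1))),
  IsPolytope P → Pres H P → UV P → PT 2 H P → ∃ c, c < 1 ∧ EC c P

/-- **STEPL** (uses `S_FACES`, `S_IOTA`, `S_NB`, `S_TWO`, `S_TR`, `S_EXT`, `S_M0`, `S_M1`, `S_M3`, `S_L1`, `S_ECP`, `S_SS`). `H` is
transitive on vertices, edges, 2-faces with a vertex in it; the figure at `v` has `EC q` (`S_TR`, `S_ECP`) and all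
2-faces have the same `κ = (⟪y, z⟫ - 2 c + 1)/(2 - 2 c)`, `q (1 - c²) = ⟪y, z⟫ - c²`. By `M3` either `κ = 1/2`: `⟪y, z⟫ = c`,
`q = c/(1 + c)`; or `κ ≤ 0`: `⟪y, z⟫ ≤ 2 c - 1`, `q < 0`, by `L1` all figures are simplices, `Simp P`, `S_SS`. -/
def S_STEPL : Prop := ∀ (n : ℕ), 4 ≤ n → ∀ (P : Set (E (n + 1)))
    (H : Subgroup (E (n + 1) ≃ₗᵢ[ℝ] E (n + 1))) (c : ℝ),
  IsPolytope P → Pres H P → UV P → EC c P → 0 < c → c < 1 → PT 3 H P →
    (RegS P ∨ RegC P) ∨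
    ∀ (v : E (n + 1)) (ι : E n →ₗᵢ[ℝ] E (n + 1)) (l : ℝ), Vx P v → Ort v ι → 0 < l →
      UV (fig v (-l • v) ι P) → EC (c / (1 + c)) (fig v (-l • v) ι P)

/-- **QJ** (uses `S_FACES`, `S_IOTA`, `S_TR`, `S_VF`, `S_M1`, `S_TC`, `S_RSC`, `S_STEPL`). Induction on `j`: `j = 0` is `S_TC`;
`c < 1/(7 - j) ≤ 1/2`: `STEPL`; `RegS` needs `c < 0`, `RegC` needs `c = 1 - 2/D > 1/2`; so the figure has `EC (c/(1+c))`,
`c/(1 + c) < 1/(8 - j)`, `PT (j + 1)`. -/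
def S_QJ : Prop := ∀ (j : ℕ), j ≤ 5 → ∀ (n : ℕ), 4 + j ≤ n → ∀ (P : Set (E (n + 1)))
    (H : Subgroup (E (n + 1) ≃ₗᵢ[ℝ] E (n + 1))) (c : ℝ),
  IsPolytope P → Pres H P → UV P → EC c P → 0 < c → c < 1 / (7 - j) → PT (j + 2) H P → False

/-- **SCL.** Scaling. -/
def S_SCL : Prop := ∀ (d : ℕ) (P : Set (E d)) (H : Subgroup (E d ≃ₗᵢ[ℝ] E d)) (r : ℝ), 0 < r →
  IsPolytope P → Pres H P → ∀ P', P' = (fun x => r • x) '' P → IsPolytope P' ∧ Pres H P' ∧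
    (∀ v, Vx P' v → Vx P (r⁻¹ • v)) ∧ (∀ j, PT j H P → PT j H P') ∧ (Reg P' → Reg P)

/-- **LL** (uses `S_FACES`, `S_CONE`, `S_IOTA`, `S_TR`, `S_VF`, `S_M1`, `S_ECP`, `S_L1`, `S_L2`, `S_STEPL`, `S_QJ`, `S_SCL`). Scale to unit vertices
(all vertices have the same norm `≠ 0`); `EC c`; `c < 0`: `L1`; `c = 0`: `L2`; `0 < c < 1`: `STEPL`, and in the second case
the figure has `0 < c/(1+c) < 1/2`, `PT 7`: `QJ` with `j = 5`. -/
def S_LL : Prop := ∀ (n : ℕ), 10 ≤ n → ∀ (P : Set (E (n + 1)))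
    (H : Subgroup (E (n + 1) ≃ₗᵢ[ℝ] E (n + 1))),
  IsPolytope P → Pres H P → PT 8 H P → Reg P

end Pool.Agent.T9h44.NK
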