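import Pool.Agent.T9h44.NK.All
import Pool.Agent.T9h40.NK.Tight
import Pool.Agent.T9h61.NK.QjB
import Pool.Agent.T9h95.NK.LlB
import Pool.Agent.T9h95.NK.Ptm
import Pool.Agent.T9h46.NK.Ind4

/-!
# Project NK: assembly of the form with slope 4
-/

set_option autoImplicit false

open Set
open scoped RealInnerProductSpace

namespace Pool.Agent.T9h44.NK

open Pool.Agent.T9h98.DC Pool.Agent.T9h98.NK

theorem fPTM : Pool.Agent.T9h95.NK.PTM :=
  Pool.Agent.T9h95.NK.ptm fFaces fVF fInv fIota fSH fExt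

theorem fLL7 : S_LL7 := Pool.Agent.T9h61.NK.ll7 fFaces fCone fIota fTR fVF fM0 fM1 fRSC fStepL fSum0
  fExt fPTM fEcp fL1 fL2 fScl

/-- helper40's base: `PT 2` and `0 < c < 1/3` is impossible in dimension at least 9 -/
theorem fBase (n : ℕ) (hn : 8 ≤ n) (P : Set (E (n + 1)))
    (H : Subgroup (E (n + 1) ≃ₗᵢ[ℝ] E (n + 1))) (c : ℝ) (hP : IsPolytope P) (hH : Pres H P)
    (hU : UV P) (hE : EC c P) (hc0 : 0 < c) (hc : c < 1 / 3) (hT : PT 2 H P) : False := by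
  have h1 : PT 1 H P := fMono n P H 1 2 hP (by norm_num) (by omega) hT
  have hvt : ∀ v w, Vx P v → Vx P w → ∃ h ∈ H, h v = w := fun v w hv hw => vtrans h1 v w hv hw
  have hfin := (fFaces (n + 1) P hP.1).2.2.1
  have hS : ∀ v, v ∈ hfin.toFinset ↔ Vx P v := fun v => by simp
  exact Pool.Agent.T9h40.NK.impt fFaces fCone hn hP hH hT hc0 hc hU hE
    (fM0 n P c hP hU hE (by linarith)) hvt _ hS (fSum0 (n + 1) P H _ hP hH hvt hS)

theorem fLLT : Pool.Agent.T9h46.NK.S_LLT :=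
  Pool.Agent.T9h95.NK.ll_pt4 fFaces fVF fInv fIota fSH fExt fTR fM1 fRSC fStepL fEcp fL1 fL2 fScl
    fBase

/-- the linear upper bound with slope 4 -/
theorem bound4 (k d : ℕ) (hk : 2 ≤ k) (P : Set (E d)) (hP : IsKOrbit k P) : d < 4 * k + 6 :=
  Pool.Agent.T9h46.NK.fin4 fFaces fVF fInv fIota fTR fMono fLL7 fLLT fStep fTrans fOne fFts fFto
    fFtc k d hk P hP

/-- the recursive bound -/
theorem bound4rec (k D : ℕ) (hk : 1 ≤ k) (hD : k + 9 ≤ D)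
    (hno : ∀ j, 2 ≤ j → j ≤ k → ∀ d, D + j ≤ d + k → ∀ P : Set (E d), ¬ IsKOrbit j P) :
    ∀ m d, D + 4 * m ≤ d → ∀ j, 2 ≤ j → j ≤ k + m → ∀ P : Set (E d), ¬ IsKOrbit j P :=
  Pool.Agent.T9h46.NK.rec4 fFaces fVF fInv fIota fTR fExt fMono fLL7 fLLT fStep fTrans fOne fFts
    fFto fFtc k D hk hD hno

end Pool.Agent.T9h44.NK
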