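import Pool.Agent.T9h44.NK.Spec5

/-!
# Project NK, slope 4: the pieces of `S_ABS4`

`X` a configuration (`Cfg q X`: unit vectors, sum `0`, products `q` or `≤ 2 q - 1`), `0 < q < 1/4`. For `x ∈ X`: `A x` = the
vectors with product `q` (number `a`), `U x` = those with product `≤ 2 q - 1` (number `b`), `ee x` = number of ordered
pairs in `U x` with product `≤ 2 q - 1`.
-/

set_option autoImplicit false

open Set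
open scoped RealInnerProductSpace

namespace Pool.Agent.T9h44.NK

open Pool.Agent.T9h98.DC

open Classical in
noncomputable def UU {m : ℕ} (q : ℝ) (X : Finset (E m)) (x : E m) : Finset (E m) :=
  X.filter fun u => u ≠ x ∧ ⟪x, u⟫ ≤ 2 * q - 1

open Classical in
noncomputable def AA {m : ℕ} (q : ℝ) (X : Finset (E m)) (x : E m) : Finset (E m) :=
  X.filter fun u => u ≠ x ∧ ⟪x, u⟫ = q

open Classical in
noncomputable def ee {m : ℕ} (q : ℝ) (X : Finset (E m)) (x : E m) : ℕ :=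
  ∑ u ∈ UU q X x, (UU q X u ∩ UU q X x).card

open Classical in
/-- number of common far vectors -/
noncomputable def dd {m : ℕ} (q : ℝ) (X : Finset (E m)) (x z : E m) : ℕ := (UU q X z ∩ UU q X x).card

/-- **X1.** `0 = ⟪x, ∑ X⟫ = 1 + a q + ∑_U ⟪x, u⟫`; in `‖∑_U u‖²` the off-diagonal products are `≤ q`, and `≤ q - (1 - q)` for
the `ee x` ordered pairs. -/
def S_X1 : Prop := ∀ (m : ℕ) (q : ℝ) (X : Finset (E m)), 0 < q → q < 1 / 4 → Cfg q X → ∀ x ∈ X,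
  (AA q X x).card + (UU q X x).card + 1 = X.card ∧
  ((UU q X x).card : ℝ) * (1 - 2 * q) ≤ 1 + (AA q X x).card * q ∧
  ⟪x, ∑ u ∈ UU q X x, u⟫ = -(1 + (AA q X x).card * q) ∧
  ‖∑ u ∈ UU q X x, u‖ ^ 2 ≤
    ((UU q X x).card : ℝ) * (1 - q) + (UU q X x).card ^ 2 * q - ee q X x * (1 - q)

/-- **X2** (numbers only; `t = 1 + a q`). `b = 0` is impossible; `(1 - 2q)² - q = (1-q)(1-4q)` gives `e < b`, `b (1 - 4 q) ≤ 1`;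
`t² ≤ b²/4 + 3b/4`, `t ≤ b/2 + 3/4`. `b = 1`: `t² ≤ 1`, `a = 0`, `N = 2`. `b ≥ 2`: `q ≥ 1/8`, `a ≤ 8 (t - 1) ≤ 4 b - 2`, so
`b ≥ 61`; `q ≥ (1 - 1/b)/4`: `a ≤ (b/2 - 1/4)/q ≤ 2 b + 1 + 1/(b - 1)`, so `a ≤ 2 b + 1`, `b ≥ 101`. `a q ≥ b (1 - 2 q) - 1 > b/2 - 1`:
`a > 2 b - 4`. -/
def S_X2 : Prop := ∀ (a b e N : ℕ) (q : ℝ), 303 ≤ N → 0 < q → q < 1 / 4 → a + b + 1 = N →
  (b : ℝ) * (1 - 2 * q) ≤ 1 + a * q →
  (1 + a * q) ^ 2 ≤ (b : ℝ) * (1 - q) + b ^ 2 * q - e * (1 - q) →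
    101 ≤ b ∧ e < b ∧ a ≤ 2 * b + 1 ∧ 3 * b ≤ N + 2 ∧ N ≤ 3 * b + 2 ∧
      1 + (a : ℝ) * q ≤ b / 2 + 3 / 4

/-- **X3** (uses `S_X1`, `S_X2`). `∑_{z ∈ A x} dd x z = ∑_{u ∈ U x} |U u ∩ A x| = ∑_{u ∈ U x} (b_u - 1) - ee x ≥ b (b - 2) - b`, as
`b_u ≥ b - 1` (`3 b_u ≥ N - 2`, `3 b ≤ N + 2`); `a ≤ 2 b + 1`; `(b/2 - 2)(2 b + 1) ≤ b² - 3 b`. -/
def S_X3 : Prop := ∀ (m : ℕ) (q : ℝ) (X : Finset (E m)), 0 < q → q < 1 / 4 → Cfg q X →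
  303 ≤ X.card → ∀ x ∈ X, ∃ z ∈ AA q X x, ((UU q X x).card : ℝ) / 2 - 2 ≤ dd q X x z

/-- **X4** (uses `S_X1`, `S_X2`). `s = ∑_{U x} u`, `t = 1 + a q`: `‖s + t x‖² = ‖s‖² - t² ≤ b (1 - q) + b² q - b² (1 - 2q)² ≤ b`.
`⟪z, s⟫ = ⟪z, s + t x⟫ - t q ≥ -√b - t q` and `⟪z, s⟫ ≤ (b - d) q + d (2 q - 1)`. So `d (1 - q) ≤ b q + t q + √b`,
`d ≤ b/2 + 1/4 + (4/3) √b ≤ 0.64 b` for `b ≥ 101`. -/
def S_X4 : Prop := ∀ (m : ℕ) (q : ℝ) (X : Finset (E m)), 0 < q → q < 1 / 4 → Cfg q X →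
  303 ≤ X.card → ∀ x ∈ X, ∀ z ∈ AA q X x, (dd q X x z : ℝ) ≤ 0.64 * (UU q X x).card

/-- **X5.** `D = U z ∩ U x` (`d`), `F = U x \ U z` (`b - d`), `γ = (10 + d)/(b - d)`, `w = 10 z + ∑_D u - γ ∑_F u`. For weights `f` with
`∑ f = 0`: `‖∑ f_i i‖² = (1 - q) ∑ f_i² - ∑ (q - ⟪i, j⟫) f_i f_j` over the ordered far pairs (`q - ⟪i, j⟫ ∈ [1 - q, 1 + q]`). The far
pairs `z, D` give at most `-20 d (1 - q)`, far pairs in `D` and in `F` are `≤ 0`, far pairs between `D` and `F` give at most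
`γ ee (1 + q) ≤ γ b (1 + q)`. So `0 ≤ (1 - q)(100 + d + (10 + d)²/(b - d) - 20 d) + γ b (1 + q)`; with `b/2 - 2 ≤ d ≤ 0.64 b`,
`b ≥ 101`, `(1+q)/(1-q) ≤ 5/3`: `(10+d)²/(b-d) ≤ 1.14 b + 39`, `γ ≤ 2.06`: the sum is `< 0`. -/
def S_X5 : Prop := ∀ (m : ℕ) (q : ℝ) (X : Finset (E m)), 0 < q → q < 1 / 4 → Cfg q X → ∀ x ∈ X,
  ∀ z ∈ AA q X x, 101 ≤ (UU q X x).card → ee q X x < (UU q X x).card →
    ((UU q X x).card : ℝ) / 2 - 2 ≤ dd q X x z → (dd q X x z : ℝ) ≤ 0.64 * (UU q X x).card → False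

/-- **X6** (uses `S_X1`-`S_X5`): `S_ABS4`. -/
theorem abs4 (h1 : S_X1) (h2 : S_X2) (h3 : S_X3) (h4 : S_X4) (h5 : S_X5) : S_ABS4 := by
  intro m q X hq0 hq1 hX
  by_contra hcon
  push Not at hcon
  have hne : X.Nonempty := by
    rw [← Finset.card_pos]
    omega
  obtain ⟨x, hx⟩ := hne
  obtain ⟨z, hz, hd⟩ := h3 m q X hq0 hq1 hX (by omega) x hx
  have hd2 := h4 m q X hq0 hq1 hX (by omega) x hx z hz
  obtain ⟨c1, c2, c3, c4⟩ := h1 m q X hq0 hq1 hX x hx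
  have hn : ‖x‖ = 1 := hX.1 x hx
  have hcs : (1 + ((AA q X x).card : ℝ) * q) ^ 2 ≤ ‖∑ u ∈ UU q X x, u‖ ^ 2 := by
    have h := abs_real_inner_le_norm x (∑ u ∈ UU q X x, u)
    rw [c3, hn, one_mul, abs_neg] at h
    rw [← sq_abs (1 + ((AA q X x).card : ℝ) * q)]
    exact pow_le_pow_left₀ (abs_nonneg _) h 2
  obtain ⟨e1, e2, -⟩ := h2 _ _ (ee q X x) _ q (by omega) hq0 hq1 c1 c2 (hcs.trans c4)
  exact h5 m q X hq0 hq1 hX x hx z hz e1 e2 hd hd2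

end Pool.Agent.T9h44.NK
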