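import Pool.Agent.T9h44.NK.SpecB

/-!
# Project NK, part B2: the replaced pieces (with helper98's Lemmas KL, IMP, proved by helper47 in
`T9h47/NK/Metric.lean`)
-/

set_option autoImplicit false

open Set
open scoped RealInnerProductSpace

namespace Pool.Agent.T9h44.NK

open Pool.Agent.T9h98.DC

/-- **SUM0** (uses `S_FACES`). The sum of the vertices is fixed by `H`, so `⟪v, σ⟫` is constant on the vertices,
hence on `P`, so `σ = 0`. -/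
def S_SUM0 : Prop := ∀ (d : ℕ) (P : Set (E d)) (H : Subgroup (E d ≃ₗᵢ[ℝ] E d)) (S : Finset (E d)),
  IsPolytope P → Pres H P → (∀ v w, Vx P v → Vx P w → ∃ h ∈ H, h v = w) →
    (∀ v, v ∈ S ↔ Vx P v) → ∑ v ∈ S, v = 0

/-- **QJ2** (uses `S_FACES`, `S_CONE`, `S_IOTA`, `S_VF`, `S_TR`, `S_M1`, `S_RSC`, `S_STEPL`, `S_SUM0`, and `imp` of
`T9h47/NK/Metric.lean`). Induction on `j`. `j = 0`: `imp` (`PT 2` gives vertex-transitivity, `S_SUM0`). Step: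
`c < 1/(8 - j) ≤ 1/2` (`j ≥ 1`): `STEPL`; `RegS` needs `c < 0`, `RegC` needs `c = 1 - 2/(n + 1) > 1/2` (`S_RSC`); so the figure
(`S_M1`) has `EC (c/(1+c))`, `c/(1 + c) < 1/(8 - (j - 1))`, `PT (j + 1)` (`S_TR`). -/
def S_QJ2 : Prop := ∀ (j : ℕ), j ≤ 6 → ∀ (n : ℕ), 4 + j ≤ n → ∀ (P : Set (E (n + 1)))
    (H : Subgroup (E (n + 1) ≃ₗᵢ[ℝ] E (n + 1))) (c : ℝ),
  IsPolytope P → Pres H P → UV P → EC c P → 0 < c → c < 1 / (8 - j) → PT (j + 2) H P → False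

/-- **LL2** (uses `S_FACES`, `S_CONE`, `S_IOTA`, `S_TR`, `S_VF`, `S_M1`, `S_ECP`, `S_L1`, `S_L2`, `S_STEPL`, `S_QJ2`, `S_SCL`). Scale to
unit vertices (all vertices have the same norm `≠ 0`); `EC c`; `c < 0`: `L1`; `c = 0`: `L2`; `0 < c < 1`: `STEPL`, and in the
second case the figure has `0 < c/(1+c) < 1/2`, `PT 8`: `QJ2` with `j = 6`. -/
def S_LL2 : Prop := ∀ (n : ℕ), 11 ≤ n → ∀ (P : Set (E (n + 1)))
    (H : Subgroup (E (n + 1) ≃ₗᵢ[ℝ] E (n + 1))),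
  IsPolytope P → Pres H P → PT 9 H P → Reg P

end Pool.Agent.T9h44.NK
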