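import Pool.Agent.T9h44.NK.Ind
import Pool.Agent.T9h98.NK.Step
import Pool.Agent.T9h40.NK.Faces
import Pool.Agent.T9h46.NK.VF
import Pool.Agent.T9h71.NK.Inv
import Pool.Agent.T9h22.NK.Iota
import Pool.Agent.T9h31.NK.Nb
import Pool.Agent.T9h41.NK.Two
import Pool.Agent.T9h70.NK.Cone
import Pool.Agent.T9h66.NK.Conn
import Pool.Agent.T9h64.NK.SH
import Pool.Agent.T9h67.NK.Ext
import Pool.Agent.T9h48.NK.Tr
import Pool.Agent.T9h48.NK.Mono
import Pool.Agent.T9h71.NK.M0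
import Pool.Agent.T9h71.NK.M1
import Pool.Agent.T9h52.NK.M3
import Pool.Agent.T9h8.NK.Rankin
import Pool.Agent.T9h77.NK.Simp
import Pool.Agent.T9h10.NK.L1
import Pool.Agent.T9h18.NK.Ss
import Pool.Agent.T9h89.NK.SS1
import Pool.Agent.T9h66.NK.Ss2
import Pool.Agent.T9h31.NK.Ss3
import Pool.Agent.T9h64.NK.Ecp
import Pool.Agent.T9h69.NK.Scl
import Pool.Agent.T9h47.NK.Sum0
import Pool.Agent.T9h48.NK.Qj2
import Pool.Agent.T9h95.NK.Ll2
import Pool.Agent.T9h36.NK.Perm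
import Pool.Agent.T9h40.NK.Trans
import Pool.Agent.T9h93.NK.One
import Pool.Agent.T9h77.NK.Fts
import Pool.Agent.T9h64.NK.Fto
import Pool.Agent.T9h46.NK.Ftc
import Pool.Agent.T9h56.NK.RSC
import Pool.Agent.T9h57.NK.L2
import Pool.Agent.T9h19.NK.Stepl
import Pool.Agent.T9h98.NK.StepAll

/-!
# Project NK: assembly
-/

set_option autoImplicit false

open Set
open scoped RealInnerProductSpace

namespace Pool.Agent.T9h44.NK

open Pool.Agent.T9h98.DC Pool.Agent.T9h98.NK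

theorem fFaces : S_FACES := Pool.Agent.T9h40.NK.faces
theorem fVF : S_VF := Pool.Agent.T9h46.NK.vf
theorem fInv : S_INV := Pool.Agent.T9h71.NK.inv
theorem fIota : S_IOTA := Pool.Agent.T9h22.NK.iota
theorem fNb : S_NB := Pool.Agent.T9h31.NK.nb fFaces fVF
theorem fTwo : S_TWO := Pool.Agent.T9h41.NK.two fFaces fVF fInv fIota fNb
theorem fCone : S_CONE := Pool.Agent.T9h70.NK.cone fFaces fVF fInv fIota fNb
theorem fConn : S_CONN := Pool.Agent.T9h66.NK.conn fFaces fCone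
theorem fSH : S_SH := Pool.Agent.T9h64.NK.sh fFaces fVF
theorem fExt : S_EXT := Pool.Agent.T9h67.NK.ext fFaces fVF fInv fIota fSH
theorem fTR : S_TR := Pool.Agent.T9h48.NK.tr fFaces fVF fSH fExt
theorem fMono : S_MONO := fun _ _ _ _ _ hP hij hj h =>
  Pool.Agent.T9h48.NK.pt_mono fFaces fVF fInv fIota fSH fExt hP hij hj h
theorem fM0 : S_M0 := Pool.Agent.T9h71.NK.m0 fCone
theorem fM1 : S_M1 := Pool.Agent.T9h71.NK.m1 fFaces fNb
theorem fM3 : S_M3 := Pool.Agent.T9h52.NK.m3 fFaces fTwo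
theorem fRankin : S_RANKIN := Pool.Agent.T9h8.NK.rankin
theorem fSimp : S_SIMP := Pool.Agent.T9h77.NK.simp fFaces
theorem fL1 : S_L1 := Pool.Agent.T9h10.NK.l1 fFaces fM0 fRankin fSimp
theorem fSS1 : S_SS1 := Pool.Agent.T9h89.NK.ss1 fFaces fTwo fConn
theorem fSS2 : S_SS2 := Pool.Agent.T9h66.NK.ss2 fFaces fConn fM3
theorem fSS3 : S_SS3 := Pool.Agent.T9h31.NK.ss3 fFaces fConn fM3
theorem fSS : S_SS := Pool.Agent.T9h18.NK.ss fFaces fM3 fSS1 fSS2 fSS3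
theorem fEcp : S_ECP := Pool.Agent.T9h64.NK.ecp fFaces
theorem fScl : S_SCL := Pool.Agent.T9h69.NK.scl
theorem fSum0 : S_SUM0 := Pool.Agent.T9h47.NK.sum0 fFaces
theorem fPerm : S_PERM := Pool.Agent.T9h36.NK.perm
theorem fPermc : S_PERMC := Pool.Agent.T9h36.NK.permc
theorem fTrans : S_TRANS := Pool.Agent.T9h40.NK.trans
theorem fOne : S_ONE := Pool.Agent.T9h93.NK.one
theorem fFts : S_FTS := Pool.Agent.T9h77.NK.fts fPerm
theorem fFto : S_FTO := Pool.Agent.T9h64.NK.fto fPerm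
theorem fFtc : S_FTC := Pool.Agent.T9h46.NK.ftc fPermc
theorem fRSC : S_RSC := Pool.Agent.T9h56.NK.rsc fFaces fSimp
theorem fL2 : S_L2 := Pool.Agent.T9h57.NK.l2 fFaces fCone fM0
theorem fStepL : S_STEPL :=
  Pool.Agent.T9h19.NK.stepl fFaces fVF fIota fNb fTwo fM1 fM3 fL1 fSimp fSS
theorem fQJ2 : S_QJ2 := Pool.Agent.T9h48.NK.qj2 fFaces fVF fInv fIota fSH fExt fCone fTR fM0 fM1
  fRSC fStepL fSum0
theorem fLL2 : S_LL2 := Pool.Agent.T9h95.NK.ll2 fFaces fIota fTR fVF fM1 fEcp fL1 fL2 fStepL fQJ2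
  fScl fExt fun _ _ _ _ _ hP hij hj h =>
    Pool.Agent.T9h48.NK.pt_mono fFaces fVF fInv fIota fSH fExt hP hij hj h
theorem fStep : S_STEP := Pool.Agent.T9h98.NK.step_all fFaces fVF fTR fNb fTwo fCone fConn
theorem fMI : S_MI := mi fFaces fVF fInv fIota fTR fMono fLL2 fStep

/-- the linear upper bound -/
theorem bound (k d : ℕ) (hk : 2 ≤ k) (P : Set (E d)) (hP : IsKOrbit k P) : d < 9 * k + 3 :=
  fin fTrans fOne fFts fFto fFtc fMI k d hk P hP

end Pool.Agent.T9h44.NK
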