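import Pool.Agent.T9h98.DC.Polytope

/-!
# Project NK (helper44, MP_727bc7_co): a linear upper bound for `N_k`

Goal: `k ≥ 2`, `P` a geometrically `k`-orbit convex `d`-polytope `⟹ d < 8 k + 20`. Definitions.
-/

set_option autoImplicit false

open Set
open scoped RealInnerProductSpace

namespace Pool.Agent.T9h44.NK

open Pool.Agent.T9h98.DC

/-- dimension of a set -/
noncomputable abbrev dm {d : ℕ} (F : Set (E d)) : ℕ := Module.finrank ℝ (vectorSpan ℝ F)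

/-- hull of finitely many points -/
def FP {d : ℕ} (P : Set (E d)) : Prop := ∃ s : Finset (E d), P = convexHull ℝ (s : Set (E d))

/-- `v` is a vertex of `P` -/
def Vx {d : ℕ} (P : Set (E d)) (v : E d) : Prop := IsFace P {v}

/-- `v, w` are adjacent: the segment is an edge -/
def Adj {d : ℕ} (P : Set (E d)) (v w : E d) : Prop := v ≠ w ∧ IsFace P (segment ℝ v w)

/-- the slice of the tangent cone at `v` in the hyperplane `v + n + n^⊥`; `ι` is an isometry from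
`E d` onto `n^⊥` -/
def fig {d : ℕ} (v n : E (d + 1)) (ι : E d →ₗᵢ[ℝ] E (d + 1)) (F : Set (E (d + 1))) : Set (E d) :=
  {x | ∃ t : ℝ, 0 < t ∧ v + t • (n + ι x) ∈ F}

/-- `n` strictly supports `P` at `v` -/
def Sup {d : ℕ} (P : Set (E d)) (v n : E d) : Prop := ∀ y ∈ P, y ≠ v → 0 < ⟪y - v, n⟫

/-- `ι` maps onto the orthogonal complement of `n` -/
def Ort {d : ℕ} (n : E (d + 1)) (ι : E d →ₗᵢ[ℝ] E (d + 1)) : Prop := ∀ x, ⟪n, ι x⟫ = 0

/-- the point `x` of the figure belongs to the point `y` of `P` -/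
def Pr {d : ℕ} (v n : E (d + 1)) (ι : E d →ₗᵢ[ℝ] E (d + 1)) (y : E (d + 1)) (x : E d) : Prop :=
  ∃ t : ℝ, 0 < t ∧ y - v = t • (n + ι x)

/-- a chain of faces `F_0 ⊆ ⋯ ⊆ F_(j-1)`, `F_i` of dimension `i` -/
@[ext] structure Ch {d : ℕ} (P : Set (E d)) (j : ℕ) where
  face : Fin j → Set (E d)
  isFace : ∀ i, IsFace P (face i)
  dim : ∀ i, dm (face i) = i
  mono : Monotone face

/-- `H` preserves `P` -/
def Pres {d : ℕ} (H : Subgroup (E d ≃ₗᵢ[ℝ] E d)) (P : Set (E d)) : Prop := ∀ h ∈ H, h '' P = P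

/-- `H` is transitive on the chains `F_0 ⊂ ⋯ ⊂ F_(j-1)` -/
def PT {d : ℕ} (j : ℕ) (H : Subgroup (E d ≃ₗᵢ[ℝ] E d)) (P : Set (E d)) : Prop :=
  ∀ Φ Ψ : Ch P j, ∃ h ∈ H, ∀ i, h '' Φ.face i = Ψ.face i

/-- `H` has at most `k` orbits on the flags -/
def Few {d : ℕ} (k : ℕ) (H : Subgroup (E d ≃ₗᵢ[ℝ] E d)) (P : Set (E d)) : Prop :=
  ∀ Φ : Fin (k + 1) → Ch P d, ∃ i j, i ≠ j ∧ ∃ h ∈ H, ∀ l, h '' (Φ i).face l = (Φ j).face l

/-- the group induced on the figure by the stabilizer of `v` -/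
def figH {d : ℕ} (H : Subgroup (E (d + 1) ≃ₗᵢ[ℝ] E (d + 1))) (v : E (d + 1))
    (ι : E d →ₗᵢ[ℝ] E (d + 1)) : Subgroup (E d ≃ₗᵢ[ℝ] E d) where
  carrier := {k | ∃ h ∈ H, h v = v ∧ ∀ x, ι (k x) = h (ι x)}
  one_mem' := ⟨1, H.one_mem, rfl, fun _ => rfl⟩
  mul_mem' := by
    rintro a b ⟨h, h1, h2, h3⟩ ⟨g, g1, g2, g3⟩
    refine ⟨h * g, H.mul_mem h1 g1, ?_, fun x => ?_⟩
    · change h (g v) = v
      rw [g2, h2]
    · change ι (a (b x)) = h (g (ι x))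
      rw [h3, g3]
  inv_mem' := by
    rintro a ⟨h, h1, h2, h3⟩
    refine ⟨h⁻¹, H.inv_mem h1, ?_, fun x => ?_⟩
    · change h.symm v = v
      conv_lhs => rw [← h2]
      exact h.symm_apply_apply v
    · change ι (a.symm x) = h.symm (ι x)
      have := h3 (a.symm x)
      rw [a.apply_symm_apply] at this
      rw [this, h.symm_apply_apply]

/-- all vertices are unit vectors -/
def UV {d : ℕ} (P : Set (E d)) : Prop := ∀ v, Vx P v → ‖v‖ = 1

/-- adjacent vertices have inner product `c` -/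
def EC {d : ℕ} (c : ℝ) (P : Set (E d)) : Prop := ∀ v w, Adj P v w → ⟪v, w⟫ = c

/-- different vertices have inner product at most `c` -/
def PC {d : ℕ} (c : ℝ) (P : Set (E d)) : Prop := ∀ v w, Vx P v → Vx P w → v ≠ w → ⟪v, w⟫ ≤ c

/-- regular simplex -/
def RegS {d : ℕ} (P : Set (E d)) : Prop :=
  ∃ (v : Fin (d + 1) → E d) (s : ℝ), 0 < s ∧ (∀ i j, i ≠ j → dist (v i) (v j) = s) ∧
    P = convexHull ℝ (range v)

/-- regular cross-polytope -/
def RegO {d : ℕ} (P : Set (E d)) : Prop :=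
  ∃ (c : E d) (r : ℝ) (b : OrthonormalBasis (Fin d) ℝ (E d)), 0 < r ∧
    P = convexHull ℝ {x | ∃ i, x = c + r • b i ∨ x = c - r • b i}

/-- cube -/
def RegC {d : ℕ} (P : Set (E d)) : Prop :=
  ∃ (c : E d) (r : ℝ) (b : OrthonormalBasis (Fin d) ℝ (E d)), 0 < r ∧
    P = {x | ∀ i, |⟪x - c, b i⟫| ≤ r}

/-- regular -/
def Reg {d : ℕ} (P : Set (E d)) : Prop := RegS P ∨ RegO P ∨ RegC P

end Pool.Agent.T9h44.NK
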