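import Pool.Agent.T9h44.NK.SpecC
import Pool.Agent.T9h98.NK.SpecS

/-!
# Project NK: the induction
-/

set_option autoImplicit false

open Set
open scoped RealInnerProductSpace

namespace Pool.Agent.T9h44.NK

open Pool.Agent.T9h98.DC Pool.Agent.T9h98.NK

/-- the step, with the hypotheses in another order -/
def S_STEP' : Prop := ∀ (n : ℕ), 9 ≤ n → ∀ (P : Set (E (n + 1)))
    (H : Subgroup (E (n + 1) ≃ₗᵢ[ℝ] E (n + 1))), IsPolytope P → Pres H P →
  (∀ v, Vx P v → ∃ (m : E (n + 1)) (ι : E n →ₗᵢ[ℝ] E (n + 1)), m ≠ 0 ∧ Sup P v m ∧ Ort m ι ∧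
    (∀ h ∈ H, h v = v → h m = m) ∧ Good (fig v m ι P) (figH H v ι)) → Good P H

/-- monotonicity of `PT` -/
def S_MONO : Prop := ∀ (n : ℕ) (P : Set (E (n + 1))) (H : Subgroup (E (n + 1) ≃ₗᵢ[ℝ] E (n + 1)))
    (i j : ℕ), IsPolytope P → i ≤ j → j ≤ n + 1 → PT j H P → PT i H P

/-- **MI** -/
def S_MI : Prop := ∀ (k : ℕ), ∀ (n : ℕ), 9 * k + 11 ≤ n → ∀ (P : Set (E (n + 1)))
    (H : Subgroup (E (n + 1) ≃ₗᵢ[ℝ] E (n + 1))), IsPolytope P → Pres H P → Few (k + 1) H P → Good P H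

theorem exists_ne {n : ℕ} {P : Set (E (n + 1))} (hP : IsPolytope P) (v : E (n + 1)) :
    ∃ y ∈ P, y ≠ v := by
  by_contra hcon
  push Not at hcon
  obtain ⟨x, hx⟩ := hP.2
  have hsub : P ⊆ {v} := fun y hy => hcon y hy
  have h1 : (interior ({v} : Set (E (n + 1)))).Nonempty := ⟨x, interior_mono hsub hx⟩
  rw [interior_singleton] at h1
  exact Set.not_nonempty_empty h1

/-- the chain is empty -/
theorem pt_zero {d : ℕ} (P : Set (E d)) (H : Subgroup (E d ≃ₗᵢ[ℝ] E d)) : PT 0 H P :=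
  fun _ _ => ⟨1, H.one_mem, fun i => i.elim0⟩

/-- vertex transitivity from `PT 1` -/
theorem vtrans {n : ℕ} {P : Set (E (n + 1))} {H : Subgroup (E (n + 1) ≃ₗᵢ[ℝ] E (n + 1))}
    (h : PT 1 H P) (v w : E (n + 1)) (hv : Vx P v) (hw : Vx P w) : ∃ g ∈ H, g v = w := by
  have hdim : ∀ u : E (n + 1), dm ({u} : Set (E (n + 1))) = 0 := by
    intro u
    simp [dm, vectorSpan_singleton]
  let C : ∀ u, Vx P u → Ch P 1 := fun u hu =>
    { face := fun _ => {u}
      isFace := fun _ => hu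
      dim := fun i => by rw [hdim]; simp
      mono := fun _ _ _ => le_refl _ }
  obtain ⟨g, hg, h1⟩ := h (C v hv) (C w hw)
  refine ⟨g, hg, ?_⟩
  have h2 := h1 0
  change g '' {v} = {w} at h2
  rw [image_singleton] at h2
  exact Set.singleton_injective h2

/-- `Good` from `PT 9` -/
theorem good_of_pt (hF : S_FACES) (hM : S_MONO) (hL : S_LL2) {n : ℕ} (hn : 11 ≤ n) {P : Set (E (n + 1))}
    {H : Subgroup (E (n + 1) ≃ₗᵢ[ℝ] E (n + 1))} (hP : IsPolytope P) (hH : Pres H P) (h : PT 9 H P) :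
    Good P H := by
  refine ⟨hL n hn P H hP hH h, fun v w w' hw hw' => ?_⟩
  have h1 : PT 1 H P := hM n P H 1 9 hP (by norm_num) (by omega) h
  have hf := hF (n + 1) P hP.1
  obtain ⟨-, -, -, -, -, -, -, -, hA, -⟩ := hf
  exact vtrans h1 w w' (hA v w hw).2.1 (hA v w' hw').2.1

/-- one orbit on flags -/
theorem pt_of_few_one {n : ℕ} {P : Set (E n)} {H : Subgroup (E n ≃ₗᵢ[ℝ] E n)}
    (h : Few 1 H P) : PT n H P := by
  intro Φ Ψ
  obtain ⟨i, j, hij, g, hg, h1⟩ := h ![Φ, Ψ]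
  have key : (i = 0 ∧ j = 1) ∨ (i = 1 ∧ j = 0) := by
    fin_cases i <;> fin_cases j <;> simp_all
  rcases key with ⟨rfl, rfl⟩ | ⟨rfl, rfl⟩
  · exact ⟨g, hg, h1⟩
  · refine ⟨g⁻¹, H.inv_mem hg, fun l => ?_⟩
    have h2 : g '' Ψ.face l = Φ.face l := h1 l
    rw [← h2]
    change g.symm '' (g '' Ψ.face l) = _
    rw [← image_comp]
    have : (g.symm ∘ g : E n → E n) = id := by
      funext x
      simp
    rw [this, image_id]

/-- the induction step -/
theorem aj (hVF : S_VF) (hI : S_INV) (hO : S_IOTA) (hT : S_TR) (hS : S_STEP)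
    (k : ℕ) (hk : ∀ (n : ℕ), 9 * k + 11 ≤ n → ∀ (P : Set (E (n + 1)))
      (H : Subgroup (E (n + 1) ≃ₗᵢ[ℝ] E (n + 1))), IsPolytope P → Pres H P → Few (k + 1) H P →
      Good P H) :
    ∀ (j n : ℕ), 9 * k + 11 + j ≤ n → ∀ (P : Set (E (n + 1)))
      (H : Subgroup (E (n + 1) ≃ₗᵢ[ℝ] E (n + 1))), IsPolytope P → Pres H P → Few (k + 2) H P →
      Good P H ∨ PT j H P := by
  intro j
  induction j with
  | zero =>
    intro n _ P H _ _ _
    exact Or.inr (pt_zero P H)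
  | succ j ih =>
    intro n hn P H hP hH hFew
    obtain ⟨m, rfl⟩ : ∃ m, n = m + 1 := ⟨n - 1, by omega⟩
    -- data at every vertex
    have hdat : ∀ v, Vx P v → ∃ (a : E (m + 1 + 1)) (ι : E (m + 1) →ₗᵢ[ℝ] E (m + 1 + 1)),
        a ≠ 0 ∧ Sup P v a ∧ Ort a ι ∧ (∀ h ∈ H, h v = v → h a = a) := by
      intro v hv
      obtain ⟨a, ha, hs, hfix⟩ := hI (m + 1 + 1) P v H hP.1 hv (exists_ne hP v) hH
      obtain ⟨ι, hι, -⟩ := hO (m + 1) a ha
      exact ⟨a, ι, ha, hs, hι, hfix⟩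
    by_cases htr : ∃ v w, Vx P v ∧ Vx P w ∧ ∀ h ∈ H, h v ≠ w
    · -- not transitive on the vertices
      obtain ⟨v₀, w₀, hv₀, hw₀, hne⟩ := htr
      left
      apply hS (m + 1) P H (by omega) hP hH
      intro v hv
      obtain ⟨a, ι, ha, hs, hι, hfix⟩ := hdat v hv
      refine ⟨a, ι, hs, ha, hι, hfix, ?_⟩
      obtain ⟨t1, -, -, -, t5⟩ := hT (m + 1) P H v a ι hP hH hv hs ha hι hfix
      have hex : ∃ w, Vx P w ∧ ∀ h ∈ H, h v ≠ w := by
        by_contra hcon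
        push Not at hcon
        obtain ⟨g1, hg1, e1⟩ := hcon v₀ hv₀
        obtain ⟨g2, hg2, e2⟩ := hcon w₀ hw₀
        apply hne (g2 * g1⁻¹) (H.mul_mem hg2 (H.inv_mem hg1))
        change g2 (g1.symm v₀) = w₀
        rw [← e1, g1.symm_apply_apply, e2]
      have hfig := (hVF (m + 1) P v a ι hP hv hs ha hι).1
      exact hk m (by omega) _ _ hfig t1 (t5 (k + 1) hFew hex)
    · push Not at htr
      by_cases hex : ∃ (v a : E (m + 1 + 1)) (ι : E (m + 1) →ₗᵢ[ℝ] E (m + 1 + 1)), Vx P v ∧ a ≠ 0 ∧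
          Sup P v a ∧ Ort a ι ∧ (∀ h ∈ H, h v = v → h a = a) ∧ PT j (figH H v ι) (fig v a ι P)
      · obtain ⟨v, a, ι, hv, ha, hs, hι, hfix, hpt⟩ := hex
        right
        obtain ⟨-, -, t3, -, -⟩ := hT (m + 1) P H v a ι hP hH hv hs ha hι hfix
        exact t3 j (fun w hw => htr v w hv hw) hpt
      · left
        apply hS (m + 1) P H (by omega) hP hH
        intro v hv
        obtain ⟨a, ι, ha, hs, hι, hfix⟩ := hdat v hv
        refine ⟨a, ι, hs, ha, hι, hfix, ?_⟩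
        obtain ⟨t1, -, -, t4, -⟩ := hT (m + 1) P H v a ι hP hH hv hs ha hι hfix
        have hfig := (hVF (m + 1) P v a ι hP hv hs ha hι).1
        rcases ih m (by omega) _ _ hfig t1 (t4 (k + 2) hFew) with h | h
        · exact h
        · exact absurd ⟨v, a, ι, hv, ha, hs, hι, hfix, h⟩ hex

theorem mi (hF : S_FACES) (hVF : S_VF) (hI : S_INV) (hO : S_IOTA) (hT : S_TR) (hM : S_MONO)
    (hL : S_LL2) (hS : S_STEP) : S_MI := by
  intro k
  induction k with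
  | zero =>
    intro n hn P H hP hH hFew
    refine good_of_pt hF hM hL (by omega) hP hH ?_
    exact hM n P H 9 (n + 1) hP (by omega) le_rfl (pt_of_few_one hFew)
  | succ k ih =>
    intro n hn P H hP hH hFew
    rcases aj hVF hI hO hT hS k ih 9 n (by omega) P H hP hH hFew with h | h
    · exact h
    · exact good_of_pt hF hM hL (by omega) hP hH h

/-- the bound -/
theorem fin (hTR : S_TRANS) (hONE : S_ONE) (h1 : S_FTS) (h2 : S_FTO) (h3 : S_FTC) (hMI : S_MI)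
    (k d : ℕ) (hk : 2 ≤ k) (P : Set (E d)) (hP : IsKOrbit k P) : d < 9 * k + 3 := by
  by_contra hcon
  push Not at hcon
  obtain ⟨n, rfl⟩ : ∃ n, d = n + 1 := ⟨d - 1, by omega⟩
  obtain ⟨j, rfl⟩ : ∃ j, k = j + 1 := ⟨k - 1, by omega⟩
  obtain ⟨P', H, hP', hH, hFew, hReg⟩ := hTR (n + 1) (j + 1) P hP (by omega)
  have hG := hMI j n (by omega) P' H hP' hH hFew
  have hR : FT P := by
    rcases hReg hG.1 with h | h | h
    · exact h1 _ _ h
    · exact h2 _ _ h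
    · exact h3 _ _ h
  have := hONE (n + 1) (j + 1) P hP hR
  omega

end Pool.Agent.T9h44.NK
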