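import Pool.Agent.T9h44.NK.Defs

/-!
# Project NK, part A: faces and vertex figures of polytopes

Each `S_...` is one piece; hypotheses `S_X →` may be used. (`T9h98/DC/Cls.lean` has `hull_vert`,
`T9h29/DC/Dim.lean`, `T9h77/DC/Dim.lean` have `finrank_lt`.)
-/

set_option autoImplicit false

open Set
open scoped RealInnerProductSpace

namespace Pool.Agent.T9h44.NK

open Pool.Agent.T9h98.DC

/-- **FACES.** Basic facts. `s` finite, `P = conv s`.
(i) a face `F = {x ∈ P | a x max}` is the hull of `s ∩ F`, hence `FP`; (ii) face of a face: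
`G = {x ∈ F | b x max}` is `{x ∈ P | (a + ε b) x max}`, `ε > 0` small (`s` finite); conversely the same
functional; (iii) vertices = extreme points = subset of `s`, finite, `P` is their hull; (iv) `P` is a face;
(v) dimensions of faces increase strictly (`finrank_lt`); (vi) a face of dimension 0 is `{v}`, `v` a vertex,
one of dimension 1 is a segment of adjacent vertices; endpoints of an edge are vertices. -/
def S_FACES : Prop := ∀ (d : ℕ) (P : Set (E d)), FP P →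
  (∀ F, IsFace P F → FP F ∧ F = convexHull ℝ {v | Vx P v ∧ v ∈ F}) ∧
  (∀ F, IsFace P F → ∀ G, IsFace F G ↔ (IsFace P G ∧ G ⊆ F)) ∧
  {v | Vx P v}.Finite ∧ (∀ v, Vx P v ↔ v ∈ P.extremePoints ℝ) ∧
  (P.Nonempty → IsFace P P ∧ ∃ v, Vx P v) ∧
  (∀ F G, IsFace P F → IsFace P G → F ⊆ G → F ≠ G → dm F < dm G) ∧
  (∀ F, IsFace P F → dm F = 0 → ∃ v, F = {v}) ∧
  (∀ F, IsFace P F → dm F = 1 → ∃ v w, Adj P v w ∧ F = segment ℝ v w) ∧
  (∀ v w, Adj P v w → Vx P v ∧ Vx P w ∧ Adj P w v ∧ dm (segment ℝ v w) = 1) ∧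
  (∀ v w, Adj P v w → ∀ u, Vx P u → u ∈ segment ℝ v w → u = v ∨ u = w)

/-- **VF** (uses `S_FACES`). The figure is a polytope and its faces are the figures of the faces through `v`.
Proof. For a vertex `y ≠ v` of `P` let `t_y = ⟪y - v, n⟫ / ‖n‖² > 0`, `y - v = t_y (n + ι x_y)` (`ι` maps onto
`n^⊥`, dimension count). `fig P = conv {x_y}` (if `v + t (n + ι x) ∈ P` write it as a convex combination
`v + ∑ λ_y (y - v)`, so `t (n + ι x) = ∑ λ_y t_y (n + ι x_y)`, `t = ∑ λ_y t_y`; conversely small `t`). Interior: if all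
`x_y` were in a hyperplane, `P` would be. Faces: if `F = {y ∈ P | ⟪a, y - v⟫ = 0}` with `⟪a, y - v⟫ ≤ 0` on `P` then
`fig F = {x ∈ fig P | ⟪a, ι x⟫ = - ⟪a, n⟫}`, `⟪a, ι x⟫ ≤ - ⟪a, n⟫` on `fig P`; conversely from `⟪b, x⟫ ≤ β` take
`a = ι b - (β / ‖n‖²) n`. Dimension: `vectorSpan F = ℝ (n + ι x₀) ⊕ ι (vectorSpan (fig F))`, `x₀ ∈ fig F`. -/
def S_VF : Prop := ∀ (d : ℕ) (P : Set (E (d + 1))) (v n : E (d + 1)) (ι : E d →ₗᵢ[ℝ] E (d + 1)),
  IsPolytope P → Vx P v → Sup P v n → n ≠ 0 → Ort n ι →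
    IsPolytope (fig v n ι P) ∧
    (∀ F, IsFace P F → v ∈ F → F ≠ {v} →
      IsFace (fig v n ι P) (fig v n ι F) ∧ dm (fig v n ι F) + 1 = dm F) ∧
    (∀ F', IsFace (fig v n ι P) F' → ∃ F, IsFace P F ∧ v ∈ F ∧ F ≠ {v} ∧ fig v n ι F = F') ∧
    (∀ F G, IsFace P F → IsFace P G → v ∈ F → v ∈ G → fig v n ι F ⊆ fig v n ι G → F ⊆ G)

/-- **INV.** A supporting vector fixed by the stabilizer of `v` in the group `H`. Proof. The set
`{n | ∀ vertices w ≠ v, 1 ≤ ⟪w - v, n⟫}` is closed, convex, nonempty (`{v}` is exposed) and mapped to itself by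
the `h ∈ H` with `h v = v` (`h` permutes the vertices); take its element of minimal norm (unique). -/
def S_INV : Prop := ∀ (d : ℕ) (P : Set (E d)) (v : E d) (H : Subgroup (E d ≃ₗᵢ[ℝ] E d)),
  FP P → Vx P v → (∃ y ∈ P, y ≠ v) → Pres H P →
    ∃ n, n ≠ 0 ∧ Sup P v n ∧ ∀ h ∈ H, h v = v → h n = n

/-- **IOTA.** -/
def S_IOTA : Prop := ∀ (d : ℕ) (n : E (d + 1)), n ≠ 0 →
  ∃ ι : E d →ₗᵢ[ℝ] E (d + 1), Ort n ι ∧ ∀ y, ⟪n, y⟫ = 0 → ∃ x, ι x = y

/-- **NB** (uses `S_FACES`, `S_VF`). Vertices and edges of the figure = edges and 2-faces at `v`.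
(i), (ii): `Vx (fig P) x` iff `x` belongs to a neighbour `y` (the edge `[v, y]`, dimension 1, corresponds to
`{x}`); (iii) `x` is determined by `y` and conversely; (iv) edges of the figure. (v) a 2-face through `v` has
exactly two neighbours of `v` and lies in the cone (its figure is a segment `[x, x']`). -/
def S_NB : Prop := ∀ (d : ℕ) (P : Set (E (d + 1))) (v n : E (d + 1)) (ι : E d →ₗᵢ[ℝ] E (d + 1)),
  IsPolytope P → Vx P v → Sup P v n → n ≠ 0 → Ort n ι →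
    (∀ y, Adj P v y → ∃ x, Vx (fig v n ι P) x ∧ Pr v n ι y x) ∧
    (∀ x, Vx (fig v n ι P) x → ∃ y, Adj P v y ∧ Pr v n ι y x) ∧
    (∀ y y' x x', Adj P v y → Adj P v y' → Pr v n ι y x → Pr v n ι y' x' → (x = x' ↔ y = y')) ∧
    (∀ y y' x x', Adj P v y → Adj P v y' → Pr v n ι y x → Pr v n ι y' x' →
      (Adj (fig v n ι P) x x' ↔
        (y ≠ y' ∧ ∃ T, IsFace P T ∧ dm T = 2 ∧ v ∈ T ∧ y ∈ T ∧ y' ∈ T)))

/-- **TWO** (uses `S_FACES`, `S_VF`, `S_INV`, `S_IOTA`, `S_NB`). A 2-face `T` at a vertex `v`: the figure of `T` is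
an edge of the figure. -/
def S_TWO : Prop := ∀ (d : ℕ) (P T : Set (E (d + 1))) (v : E (d + 1)),
  IsPolytope P → Vx P v → IsFace P T → dm T = 2 → v ∈ T →
    ∃ y z, y ≠ z ∧ Adj P v y ∧ Adj P v z ∧ y ∈ T ∧ z ∈ T ∧
      LinearIndependent ℝ ![y - v, z - v] ∧
      (∀ w, Adj P v w → w ∈ T → w = y ∨ w = z) ∧
      (∀ x ∈ T, ∃ α β : ℝ, 0 ≤ α ∧ 0 ≤ β ∧ x - v = α • (y - v) + β • (z - v)) ∧
      (∀ x ∈ T, ∀ β : ℝ, x - v = β • (z - v) → x ∈ segment ℝ v z) ∧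
      (∀ x ∈ T, ∀ α : ℝ, x - v = α • (y - v) → x ∈ segment ℝ v y)

/-- **CONE** (uses `S_FACES`, `S_VF`, `S_INV`, `S_IOTA`, `S_NB`). `P` is in the cone of the edges at `v`:
`x - v = t (n + ι x')`, `x' ∈ fig P` is a convex combination of the vertices of `fig P`. -/
def S_CONE : Prop := ∀ (d : ℕ) (P : Set (E (d + 1))) (v : E (d + 1)), IsPolytope P → Vx P v →
  ∀ x ∈ P, ∃ (S : Finset (E (d + 1))) (c : E (d + 1) → ℝ), (∀ y ∈ S, Adj P v y ∧ 0 ≤ c y) ∧
    x - v = ∑ y ∈ S, c y • (y - v)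

/-- **CONN** (uses `S_FACES`, `S_CONE`). The graph is connected. Proof. Let `w` be a vertex outside `A`, `a` a
functional with maximum only at `w`, `v ∈ A` a vertex with `a v` maximal; by `S_CONE` for `x = w` some neighbour
of `v` has a larger value. -/
def S_CONN : Prop := ∀ (d : ℕ) (P : Set (E (d + 1))), IsPolytope P → ∀ A : Set (E (d + 1)),
  (∃ v ∈ A, Vx P v) → (∀ v ∈ A, ∀ w, Vx P v → Adj P v w → w ∈ A) → ∀ v, Vx P v → v ∈ A

/-- **SPAN** (uses `S_FACES`, `S_VF`, `S_INV`, `S_IOTA`, `S_NB`, `S_CONE`). The 2-faces containing an edge span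
(dimension `≥ 2`). Proof. If `⟪a, x⟫ = β` on all 2-faces containing `[y, z]`, take the figure at `y` (vertex `x_z`); all
neighbours of `x_z` in it are in the hyperplane `⟪a, n + ι x⟫ = 0`; by `S_CONE` for the figure it is contained in it, so
`P ⊆ {⟪a, x⟫ = β}`, so `a = 0`. -/
def S_SPAN : Prop := ∀ (d : ℕ) (P : Set (E (d + 2))) (y z a : E (d + 2)) (β : ℝ), IsPolytope P →
  Adj P y z → (∀ T, IsFace P T → dm T = 2 → y ∈ T → z ∈ T → ∀ x ∈ T, ⟪a, x⟫ = β) → a = 0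

/-- **SH** (uses `S_FACES`, `S_VF`). Chains through `v` and chains of the figure. -/
def S_SH : Prop := ∀ (d : ℕ) (P : Set (E (d + 1))) (v n : E (d + 1)) (ι : E d →ₗᵢ[ℝ] E (d + 1)),
  IsPolytope P → Vx P v → Sup P v n → n ≠ 0 → Ort n ι → ∀ j : ℕ,
    (∀ Ψ : Ch (fig v n ι P) j, ∃ Φ : Ch P (j + 1), Φ.face 0 = {v} ∧
      ∀ i : Fin j, fig v n ι (Φ.face i.succ) = Ψ.face i) ∧
    (∀ Φ : Ch P (j + 1), Φ.face 0 = {v} → ∃ Ψ : Ch (fig v n ι P) j,
      ∀ i : Fin j, fig v n ι (Φ.face i.succ) = Ψ.face i)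

/-- **EXT** (uses `S_FACES`, `S_VF`, `S_INV`, `S_IOTA`, `S_SH`). Every vertex is in a flag (induction on `d`). -/
def S_EXT : Prop := ∀ (d : ℕ) (P : Set (E (d + 1))) (v : E (d + 1)), IsPolytope P → Vx P v →
  ∃ Φ : Ch P (d + 1), Φ.face 0 = {v}

/-- **TR** (uses `S_FACES`, `S_VF`, `S_SH`, `S_EXT`). Transfer of transitivity and of the number of orbits.
`n` is fixed by the stabilizer of `v`, which acts on the figure by `figH` (`h` preserves `n^⊥`, so it induces a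
`k` with `ι (k x) = h (ι x)`, and `fig (h F) = k (fig F)`; faces through `v` are determined by their figures).
(i) `PT (j+1) H P → PT j (figH H v ι) (fig P)`. (ii) the converse if `H` is transitive on the vertices.
(iii) `Few k`. (iv) `Few (k + 1) H P` and a vertex `w` not equivalent to `v`: `Few k` for the figure (add to
`k + 1` flags through `v` a flag through `w`). -/
def S_TR : Prop := ∀ (d : ℕ) (P : Set (E (d + 1))) (H : Subgroup (E (d + 1) ≃ₗᵢ[ℝ] E (d + 1)))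
    (v n : E (d + 1)) (ι : E d →ₗᵢ[ℝ] E (d + 1)),
  IsPolytope P → Pres H P → Vx P v → Sup P v n → n ≠ 0 → Ort n ι → (∀ h ∈ H, h v = v → h n = n) →
    Pres (figH H v ι) (fig v n ι P) ∧
    (∀ j, PT (j + 1) H P → PT j (figH H v ι) (fig v n ι P)) ∧
    (∀ j, (∀ w, Vx P w → ∃ h ∈ H, h v = w) → PT j (figH H v ι) (fig v n ι P) → PT (j + 1) H P) ∧
    (∀ k, Few k H P → Few k (figH H v ι) (fig v n ι P)) ∧
    (∀ k, Few (k + 1) H P → (∃ w, Vx P w ∧ ∀ h ∈ H, h v ≠ w) →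
      Few k (figH H v ι) (fig v n ι P))

end Pool.Agent.T9h44.NK
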