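import Pool.Agent.T9h44.NK.SpecB2

/-!
# Project NK, part C: the regular polytopes are flag-transitive; reduction to linear groups
-/

set_option autoImplicit false

open Set
open scoped RealInnerProductSpace

namespace Pool.Agent.T9h44.NK

open Pool.Agent.T9h98.DC

/-- any two flags are equivalent under isometries preserving `P` -/
def FT {d : ℕ} (P : Set (E d)) : Prop :=
  ∀ Φ Ψ : Flag P, ∃ g : E d ≃ᵢ E d, g '' P = P ∧ ∀ i, g '' Φ.face i = Ψ.face i

/-- **PERM.** Two chains of subsets of a finite set, `|I_i| = |J_i| = i + 1`: a permutation maps one to the other. -/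
def S_PERM : Prop := ∀ (m d : ℕ) (I J : Fin d → Finset (Fin m)), Monotone I → Monotone J →
  (∀ i, (I i).card = i + 1) → (∀ i, (J i).card = i + 1) →
    ∃ τ : Equiv.Perm (Fin m), ∀ i, (I i).image τ = J i

/-- **PERMC.** The same with decreasing chains, `|I_i| = |J_i| = m - i`. -/
def S_PERMC : Prop := ∀ (m d : ℕ) (I J : Fin d → Finset (Fin m)), d ≤ m → Antitone I → Antitone J →
  (∀ i, (I i).card = m - i) → (∀ i, (J i).card = m - i) →
    ∃ τ : Equiv.Perm (Fin m), ∀ i, (I i).image τ = J i

/-- **FTS** (uses `S_PERM`). `P = conv (v i)`, `v` equidistant, so affinely independent; the faces are `conv (v '' I)`,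
`dim + 1 = |I|` (the face `{a = max}` is the hull of its vertices); a flag is a chain `|I_i| = i + 1`; a permutation of
the `v i` extends to an isometry. -/
def S_FTS : Prop := ∀ (d : ℕ) (P : Set (E d)), RegS P → FT P

/-- **FTO** (uses `S_PERM`). Proper faces of the cross-polytope: `conv {c + r ε_j b_j | j ∈ I}`, `ε = ±1` (a functional
`a` on `±b_j`: maximum `> 0` is attained at `sign(a b_j) b_j` only), `dim + 1 = |I|`. A flag gives a chain `I_i` and one
sign function (the signs of the greatest face; free outside). Two flags are related by `c + ∑ x_j b_j ↦ c + ∑ ± x_j b_τ(j)`. -/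
def S_FTO : Prop := ∀ (d : ℕ) (P : Set (E d)), RegO P → FT P

/-- **FTC** (uses `S_PERMC`). Faces of the cube: `{x ∈ P | ∀ j ∈ J, ⟪x - c, b_j⟫ = ε_j r}` (`J` = the coordinates with
`a b_j ≠ 0`), dimension `d - |J|`. A flag gives a decreasing chain `J_i`, `|J_i| = d - i`, and one sign function `ε`
(of the vertex `F_0`). Two flags are related by a signed permutation of the `b_j` (centre `c`). -/
def S_FTC : Prop := ∀ (d : ℕ) (P : Set (E d)), RegC P → FT P

/-- **TRANS** (uses `S_FACES`). Translate the centroid of the vertices to `0`: the isometries preserving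
`P' = P - centroid` fix `0`, so they are linear; `H` = the group of the linear isometries preserving `P'`. `Few k`: among
`k + 1` flags two are in the same class (`Nat.card = k > 0`). -/
def S_TRANS : Prop := ∀ (d k : ℕ) (P : Set (E d)), IsKOrbit k P → 0 < k →
  ∃ (P' : Set (E d)) (H : Subgroup (E d ≃ₗᵢ[ℝ] E d)), IsPolytope P' ∧ Pres H P' ∧ Few k H P' ∧
    (Reg P' → Reg P)

/-- **ONE.** A polytope all of whose flags are equivalent is not `k`-orbit for `k ≥ 2`. -/
def S_ONE : Prop := ∀ (d k : ℕ) (P : Set (E d)), IsKOrbit k P → FT P → k ≤ 1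

end Pool.Agent.T9h44.NK
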